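import Pool.Agent.Helper14.LE.Stmts2

/-! # DOM: the domain in `ℝ⁶` -/

open MeasureTheory Set Filter Topology InnerProductSpace Laplacian

noncomputable section

namespace LEP.DOM

open LEP

theorem norm_sq (x : E6) : ‖x‖ ^ 2 = (x 0 ^ 2 + x 1 ^ 2 + x 2 ^ 2) + (x 3 ^ 2 + x 4 ^ 2 + x 5 ^ 2) := by
  rw [EuclideanSpace.real_norm_sq_eq, Fin.sum_univ_six]
  ring

theorem ra_nonneg (x : E6) : 0 ≤ ra x := Real.sqrt_nonneg _
theorem rb_nonneg (x : E6) : 0 ≤ rb x := Real.sqrt_nonneg _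

theorem ra_sq (x : E6) : ra x ^ 2 = x 0 ^ 2 + x 1 ^ 2 + x 2 ^ 2 := by
  unfold ra
  rw [Real.sq_sqrt (by positivity)]

theorem rb_sq (x : E6) : rb x ^ 2 = x 3 ^ 2 + x 4 ^ 2 + x 5 ^ 2 := by
  unfold rb
  rw [Real.sq_sqrt (by positivity)]

theorem norm_sq' (x : E6) : ‖x‖ ^ 2 = ra x ^ 2 + rb x ^ 2 := by
  rw [norm_sq, ra_sq, rb_sq]

theorem norm_ZZ (x : E6) : ‖ZZ x‖ = ‖x‖ := by
  have h1 : ‖ZZ x‖ ^ 2 = ‖x‖ ^ 2 := by
    rw [norm_sq', ← Complex.normSq_eq_norm_sq, Complex.normSq_apply]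
    show ra x * ra x + rb x * rb x = _
    ring
  exact (pow_left_inj₀ (norm_nonneg _) (norm_nonneg _) two_ne_zero).1 h1

theorem fold_ZZ (x : E6) : fold (ZZ x) = ZZ x := by
  unfold fold ZZ
  apply Complex.ext
  · show |ra x| = ra x
    exact abs_of_nonneg (ra_nonneg x)
  · show |rb x| = rb x
    exact abs_of_nonneg (rb_nonneg x)

theorem continuous_coord (i : Fin 6) : Continuous fun x : E6 => x i := by
  fun_prop

theorem continuous_ra : Continuous ra := by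
  unfold ra
  fun_prop

theorem continuous_rb : Continuous rb := by
  unfold rb
  fun_prop

theorem ZZ_eq (x : E6) : ZZ x = (ra x : ℂ) + (rb x : ℂ) * Complex.I := by
  apply Complex.ext <;> simp [ZZ]

theorem continuous_ZZ : Continuous ZZ := by
  have h : ZZ = fun x => (ra x : ℂ) + (rb x : ℂ) * Complex.I := funext ZZ_eq
  rw [h]
  have h1 := continuous_ra
  have h2 := continuous_rb
  fun_prop

theorem ra_smul {t : ℝ} (ht : 0 ≤ t) (x : E6) : ra (t • x) = t * ra x := by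
  have h1 : ra (t • x) ^ 2 = (t * ra x) ^ 2 := by
    rw [mul_pow, ra_sq, ra_sq]
    simp only [PiLp.smul_apply, smul_eq_mul]
    ring
  exact (pow_left_inj₀ (ra_nonneg _) (mul_nonneg ht (ra_nonneg _)) two_ne_zero).1 h1

theorem rb_smul {t : ℝ} (ht : 0 ≤ t) (x : E6) : rb (t • x) = t * rb x := by
  have h1 : rb (t • x) ^ 2 = (t * rb x) ^ 2 := by
    rw [mul_pow, rb_sq, rb_sq]
    simp only [PiLp.smul_apply, smul_eq_mul]
    ring
  exact (pow_left_inj₀ (rb_nonneg _) (mul_nonneg ht (rb_nonneg _)) two_ne_zero).1 h1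

theorem ZZ_smul {t : ℝ} (ht : 0 ≤ t) (x : E6) : ZZ (t • x) = (t : ℂ) * ZZ x := by
  rw [ZZ_eq, ZZ_eq, ra_smul ht, rb_smul ht]
  push_cast
  ring

theorem mem_Om {R : ℝ → ℝ} {x : E6} : x ∈ Om R ↔ ZZ x ∈ Udom R := by
  unfold Om Udom
  rw [mem_ofPred_eq, mem_ofPred_eq, fold_ZZ, norm_ZZ]

theorem contDiffAt_ra {x : E6} (h : 0 < ra x) : ContDiffAt ℝ (⊤ : ℕ∞) ra x := by
  have h0 : x 0 ^ 2 + x 1 ^ 2 + x 2 ^ 2 ≠ 0 := by
    rw [← ra_sq]
    positivity
  unfold ra
  refine ContDiffAt.sqrt ?_ h0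
  fun_prop

theorem contDiffAt_rb {x : E6} (h : 0 < rb x) : ContDiffAt ℝ (⊤ : ℕ∞) rb x := by
  have h0 : x 3 ^ 2 + x 4 ^ 2 + x 5 ^ 2 ≠ 0 := by
    rw [← rb_sq]
    positivity
  unfold rb
  refine ContDiffAt.sqrt ?_ h0
  fun_prop

theorem contDiffAt_arg {z : ℂ} (hz : z ∈ Complex.slitPlane) :
    ContDiffAt ℝ (⊤ : ℕ∞) Complex.arg z := by
  have h1 : ContDiffAt ℝ (⊤ : ℕ∞) (fun w => (Complex.log w).im) z :=
    Complex.imCLM.contDiff.contDiffAt.comp z ((Complex.contDiffAt_log hz).restrict_scalars ℝ)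
  have h2 : (fun w => (Complex.log w).im) = Complex.arg := funext Complex.log_im
  rwa [h2] at h1

theorem ZZ_slit {x : E6} (hx : x ≠ 0) : ZZ x ∈ Complex.slitPlane := by
  rw [Complex.mem_slitPlane_iff]
  show 0 < ra x ∨ rb x ≠ 0
  by_contra hc
  push Not at hc
  have h1 : ra x = 0 := le_antisymm hc.1 (ra_nonneg x)
  have h2 := norm_sq' x
  rw [h1, hc.2] at h2
  apply hx
  rw [← norm_eq_zero]
  have h3 : ‖x‖ ^ 2 = 0 := by rw [h2]; ring
  exact pow_eq_zero_iff two_ne_zero |>.1 h3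

theorem contDiffAt_ZZ {x : E6} (h1 : 0 < ra x) (h2 : 0 < rb x) :
    ContDiffAt ℝ (⊤ : ℕ∞) ZZ x := by
  have h : ZZ = fun x => (ra x : ℂ) + (rb x : ℂ) * Complex.I := funext ZZ_eq
  rw [h]
  have h3 : ContDiffAt ℝ (⊤ : ℕ∞) (fun x => (ra x : ℂ)) x :=
    Complex.ofRealCLM.contDiff.contDiffAt.comp x (contDiffAt_ra h1)
  have h4 : ContDiffAt ℝ (⊤ : ℕ∞) (fun x => (rb x : ℂ)) x :=
    Complex.ofRealCLM.contDiff.contDiffAt.comp x (contDiffAt_rb h2)
  exact h3.add (h4.mul contDiffAt_const)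

theorem contDiff_Rn (Rv : Fin 2 → ℝ) (n : ℕ) : ContDiff ℝ (⊤ : ℕ∞) (Rn Rv n) := by
  have h : ∀ a : ℝ, ContDiff ℝ (⊤ : ℕ∞) (fun t : ℝ => Real.smoothTransition (n * (t - a))) :=
    fun a => Real.smoothTransition.contDiff.comp (by fun_prop)
  have h' : ∀ a : ℝ, ContDiff ℝ (⊤ : ℕ∞) (fun t : ℝ => Real.smoothTransition (n * (a - t))) :=
    fun a => Real.smoothTransition.contDiff.comp (by fun_prop)
  unfold Rn
  exact (contDiff_const.add ((contDiff_const.mul (h _)).mul (h' _))).add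
    ((contDiff_const.mul (h _)).mul (h' _))

theorem arg_ZZ_of_ra {x : E6} (h : ra x = 0) (hx : x ≠ 0) :
    Complex.arg (ZZ x) = Real.pi / 2 := by
  have h1 : 0 < rb x := by
    rcases (rb_nonneg x).eq_or_lt with h2 | h2
    · exfalso
      have h3 := norm_sq' x
      rw [h, ← h2] at h3
      apply hx
      rw [← norm_eq_zero]
      have h4 : ‖x‖ ^ 2 = 0 := by rw [h3]; ring
      exact pow_eq_zero_iff two_ne_zero |>.1 h4
    · exact h2
  rw [ZZ_eq, h]
  simp only [Complex.ofReal_zero, zero_add]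
  rw [Complex.arg_eq_pi_div_two_iff]
  simp [h1]

theorem arg_ZZ_of_rb {x : E6} (h : rb x = 0) : Complex.arg (ZZ x) = 0 := by
  rw [ZZ_eq, h]
  simp only [Complex.ofReal_zero, zero_mul, add_zero]
  exact Complex.arg_ofReal_of_nonneg (ra_nonneg x)

theorem th0_pos : 0 < th0 := by
  unfold th0
  positivity

theorem pi_eq : Real.pi / 2 = 27 * th0 := by
  unfold th0
  ring

section

variable {R : ℝ → ℝ} (hR : Prof R)

include hR

theorem R_pos (t : ℝ) : 0 < R t := lt_of_lt_of_le one_pos (hR.one_le t)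

theorem Fg_le (x : E6) : Fg R x ≤ ‖x‖ := by
  unfold Fg
  exact div_le_self (norm_nonneg _) (hR.one_le _)

theorem Fg_nonneg (x : E6) : 0 ≤ Fg R x := by
  unfold Fg
  exact div_nonneg (norm_nonneg _) (R_pos hR _).le

theorem mem_Om_iff (x : E6) : x ∈ Om R ↔ Fg R x < 1 := by
  unfold Om Fg
  rw [div_lt_one (R_pos hR _)]
  exact Iff.rfl

theorem Fg_smul {t : ℝ} (ht : 0 ≤ t) (x : E6) : Fg R (t • x) = t * Fg R x := by
  unfold Fg
  rcases ht.eq_or_lt with rfl | h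
  · simp
  · rw [ZZ_smul ht, Complex.arg_real_mul _ h, norm_smul, Real.norm_of_nonneg ht]
    ring

theorem Fg_contDiffAt (hs : ContDiff ℝ (⊤ : ℕ∞) R) {x : E6} (hx : x ≠ 0) :
    ContDiffAt ℝ (⊤ : ℕ∞) (Fg R) x := by
  have hn : ContDiffAt ℝ (⊤ : ℕ∞) (fun y : E6 => ‖y‖) x := contDiffAt_norm ℝ hx
  have hc : ContinuousAt (fun y => Complex.arg (ZZ y)) x :=
    (Complex.continuousAt_arg (ZZ_slit hx)).comp continuous_ZZ.continuousAt
  -- near the axes
  have key : (∀ᶠ y in 𝓝 x, R (Complex.arg (ZZ y)) = 1) → ContDiffAt ℝ (⊤ : ℕ∞) (Fg R) x := by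
    intro h
    refine hn.congr_of_eventuallyEq ?_
    filter_upwards [h] with y hy
    unfold Fg
    rw [hy, div_one]
  rcases (ra_nonneg x).eq_or_lt with h1 | h1
  · refine key ?_
    have h2 : Complex.arg (ZZ x) ∈ Ioi (26 * th0) := by
      rw [arg_ZZ_of_ra h1.symm hx, pi_eq]
      have := th0_pos
      show 26 * th0 < 27 * th0
      linarith
    filter_upwards [hc (Ioi_mem_nhds h2)] with y hy
    exact hR.near1 _ (le_of_lt hy)
  rcases (rb_nonneg x).eq_or_lt with h2 | h2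
  · refine key ?_
    have h3 : Complex.arg (ZZ x) ∈ Iio th0 := by
      rw [arg_ZZ_of_rb h2.symm]
      exact th0_pos
    filter_upwards [hc (Iio_mem_nhds h3)] with y hy
    exact hR.near0 _ (le_of_lt hy)
  · unfold Fg
    refine hn.div ?_ (R_pos hR _).ne'
    exact hs.contDiffAt.comp x ((contDiffAt_arg (ZZ_slit hx)).comp x (contDiffAt_ZZ h1 h2))

theorem Fg_continuous (hs : ContDiff ℝ (⊤ : ℕ∞) R) : Continuous (Fg R) := by
  rw [continuous_iff_continuousAt]
  intro x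
  by_cases hx : x = 0
  · subst hx
    have h0 : Fg R 0 = 0 := by simp [Fg]
    rw [ContinuousAt, h0]
    refine squeeze_zero (fun y => Fg_nonneg hR y) (fun y => Fg_le hR y) ?_
    have := (continuous_norm (E := E6)).tendsto 0
    rwa [norm_zero] at this
  · exact (Fg_contDiffAt hR hs hx).continuousAt

theorem closure_Om (hs : ContDiff ℝ (⊤ : ℕ∞) R) : closure (Om R) = {x | Fg R x ≤ 1} := by
  have hO : Om R = {x | Fg R x < 1} := by
    ext x
    exact mem_Om_iff hR x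
  apply Subset.antisymm
  · refine closure_minimal ?_ (isClosed_le (Fg_continuous hR hs) continuous_const)
    intro x hx
    exact le_of_lt ((mem_Om_iff hR x).1 hx)
  · intro x hx
    have hx' : Fg R x ≤ 1 := hx
    have h1 : Tendsto (fun t : ℝ => t • x) (𝓝[<] 1) (𝓝 x) := by
      have h2 : Tendsto (fun t : ℝ => t • x) (𝓝 1) (𝓝 ((1 : ℝ) • x)) :=
        (continuous_id.smul continuous_const).tendsto 1
      rw [one_smul] at h2
      exact h2.mono_left nhdsWithin_le_nhds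
    refine mem_closure_of_tendsto h1 ?_
    have h3 : ∀ᶠ t : ℝ in 𝓝[<] 1, t < 1 := self_mem_nhdsWithin
    have h4 : ∀ᶠ t : ℝ in 𝓝[<] 1, 0 < t := by
      refine nhdsWithin_le_nhds ?_
      exact Ioi_mem_nhds one_pos
    filter_upwards [h3, h4] with t ht ht'
    rw [mem_Om_iff hR, Fg_smul hR ht'.le]
    have h5 := Fg_nonneg hR x
    nlinarith

end

/-- DOM. -/
theorem st_DOM (hGEO : ST_GEO) : ST_DOM := by
  refine ⟨fun x => ⟨norm_ZZ x, ra_nonneg x, rb_nonneg x, fold_ZZ x⟩, continuous_ZZ,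
    fun t ht x => ZZ_smul ht x, ?_, ?_⟩
  · intro R hR
    obtain ⟨hU, -, -, -, -, -, -⟩ := hGEO.1 R hR
    refine ⟨?_, ?_, ?_, ?_⟩
    · intro x h1 h2
      rw [mem_Om]
      exact ⟨fun h => ⟨h, h1, h2⟩, fun h => h.1⟩
    · have h : Om R = ZZ ⁻¹' Udom R := by
        ext x
        exact mem_Om
      rw [h]
      exact hU.preimage continuous_ZZ
    · obtain ⟨B, hB⟩ := hR.bdd
      refine (Metric.isBounded_ball (x := (0 : E6)) (r := B)).subset ?_
      intro x hx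
      rw [mem_ball_zero_iff]
      exact lt_of_lt_of_le hx (hB _)
    · show ‖(0 : E6)‖ < R _
      rw [norm_zero]
      exact R_pos hR _
  · intro Rv hRv n
    have hP : Prof (Rn Rv n) := (hGEO.2 Rv hRv).2.1 n
    have hs := contDiff_Rn Rv n
    have hO : Om (Rn Rv n) = {x | Fg (Rn Rv n) x < 1} := by
      ext x
      exact mem_Om_iff hP x
    have hopen : IsOpen (Om (Rn Rv n)) := by
      rw [hO]
      exact isOpen_lt (Fg_continuous hP hs) continuous_const
    refine ⟨fun x hx => Fg_contDiffAt hP hs hx, Fg_continuous hP hs,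
      fun t ht x => Fg_smul hP ht x, ?_, hO, ?_, closure_Om hP hs⟩
    · intro x hx
      exact div_pos (norm_pos_iff.2 hx) (R_pos hP _)
    · rw [hopen.frontier_eq, closure_Om hP hs]
      ext x
      constructor
      · rintro ⟨h1, h2⟩
        have h1' : Fg (Rn Rv n) x ≤ 1 := h1
        rw [mem_Om_iff hP, not_lt] at h2
        exact le_antisymm h1' h2
      · intro h
        have h' : Fg (Rn Rv n) x = 1 := h
        refine ⟨le_of_eq h', ?_⟩
        rw [mem_Om_iff hP, h']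
        exact lt_irrefl _

end LEP.DOM
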